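import Pool.Agent.helper88.HT.Spec

/-!
# HT, row DBL: monotone languages suffice
-/

set_option autoImplicit false

namespace Pool.Agent.helper88.HT

open Pool.Agent.helper38.Neg Pool.Agent.helper55.NT

/-- row DBL -/
theorem DBL : DBL_stmt := by
  constructor
  · intro h A hA
    obtain ⟨p, hp⟩ := h (dbl A) (dbl_inNPPoly A hA) (dbl_mono A)
    refine ⟨Polynomial.X + 2 * p.comp (Polynomial.X + Polynomial.X), fun n => ?_⟩
    obtain ⟨s, hs, C, o, hC⟩ := hp (n + n)
    obtain ⟨s', hs', C', o', h1⟩ := dbl_circuit A n s C o hC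
    refine ⟨s', hs'.trans ?_, C', o', h1⟩
    simp only [Polynomial.eval_add, Polynomial.eval_X, Polynomial.eval_mul, Polynomial.eval_ofNat,
      Polynomial.eval_comp]
    have : s ≤ p.eval (n + n) := hs
    omega
  · intro h A hA
    obtain ⟨k, hk⟩ := h (dbl A) (dbl_inNPPoly A hA) (dbl_mono A)
    refine ⟨k * 2 ^ k + k + 4, fun n => ?_⟩
    obtain ⟨s, hs, C, o, hC⟩ := hk (n + n)
    obtain ⟨s', hs', C', o', h1⟩ := dbl_circuit A n s C o hC
    refine ⟨s', hs'.trans ?_, C', o', h1⟩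
    have h2 : s ≤ 2 ^ (k * lg (n + n) ^ k) := hs
    have h3 : k * lg (n + n) ^ k ≤ k * 2 ^ k * lg n ^ k := by
      rw [mul_assoc, ← mul_pow]
      exact Nat.mul_le_mul_left _ (Nat.pow_le_pow_left (lg_two n) _)
    have h4 : 2 * s ≤ 2 ^ (k * 2 ^ k * lg n ^ k + 1) := by
      rw [pow_succ]
      have := h2.trans (Nat.pow_le_pow_right (by norm_num) h3)
      omega
    have h5 : n ≤ 2 ^ (lg n + 1) := by
      have := lt_two_pow_lg n
      omega
    have h6 : n + 2 * s ≤ 2 ^ ((lg n + 1) + (k * 2 ^ k * lg n ^ k + 1) + 1) :=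
      (Nat.add_le_add h5 h4).trans (two_pow_add _ _)
    refine h6.trans (Nat.pow_le_pow_right (by norm_num) ?_)
    set K := k * 2 ^ k + k + 4 with hK
    have a1 : lg n ^ k ≤ lg n ^ K := lg_pow_le n (by omega)
    have a2 : lg n ≤ lg n ^ K := Nat.le_self_pow (by omega) _
    have a3 : 1 ≤ lg n ^ K := Nat.one_le_pow _ _ (lg_pos n)
    have a4 : k * 2 ^ k * lg n ^ k ≤ k * 2 ^ k * lg n ^ K := Nat.mul_le_mul_left _ a1
    have a5 : K * lg n ^ K = k * 2 ^ k * lg n ^ K + k * lg n ^ K + 4 * lg n ^ K := by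
      rw [hK]; ring
    rw [a5]
    have a6 : 0 ≤ k * lg n ^ K := Nat.zero_le _
    omega

end Pool.Agent.helper88.HT
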